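import Pool.Agent.Helper72.LSr.N1

/-!
# Every `(n, m)` lies on a valid line with `k + 1 ≤ ν ≤ 2 k + 1`
-/

namespace Pool.Agent.Helper31.LSr

open Pool.Agent.Helper72.LSr

/-- the position of a line -/
def OnLine (n m : ℤ) : Prop :=
  ∃ k A B δ : ℕ, 1 ≤ k ∧ δ ≤ k ∧ n = EE k A B + k + 1 + δ ∧
    0 ≤ rho k A B n m ∧ 0 ≤ gg k A B n m

theorem OnLine.sub_one {n m : ℤ} (hm : 1 ≤ m) (h : OnLine n m) : OnLine n (m - 1) := by
  obtain ⟨k, A, B, δ, hk, hδ, hn, hr, hg⟩ := h
  have hMm : Mm k A B n = k - δ := by unfold Mm nu; rw [hn]; ring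
  have hnu : nu k A B n = k + 1 + δ := by unfold nu; rw [hn]; ring
  have hδ' : (δ : ℤ) ≤ k := by exact_mod_cast hδ
  rcases (show rho k A B n m = 0 ∨ 1 ≤ rho k A B n m by omega) with hr0 | hr1
  · rcases Nat.eq_zero_or_pos δ with hδ0 | hδ0
    · subst hδ0
      have hth : th k A B n m = 0 := by
        unfold rho at hr0
        rw [hnu] at hr0
        push_cast at hr0
        linarith
      rcases A with _ | _ | A
      · rcases B with _ | B
        · exfalso
          have h3 : m = 0 := by
            have h4 : th k 0 0 n m = m := by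
              unfold th nu EE
              rw [show (3 : ℕ) = 1 + 2 from rfl, es_empty]
              push_cast
              ring
            rw [h4] at hth
            exact hth
          linarith
        · refine ⟨k + 1, B, 0, k, by omega, by omega, ?_, ?_, ?_⟩
          · rw [hn]; unfold EE; push_cast; ring
          · have h1 := gg_drop (k + 1) B 0 n m
            rw [th_sw, hth] at h1
            have h2 := rho_add_gg (k + 1) B 0 n m
            have h3 := nu_drop (k + 1) B 0 n
            rw [nu_sw k (B + 1) n, hnu] at h3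
            unfold Mm at h2
            rw [rho_sub]
            push_cast at h2 h3
            linarith
          · have h1 := gg_drop (k + 1) B 0 n m
            rw [th_sw, hth] at h1
            rw [gg_sub]
            linarith
      · -- `A = 1`
        have hth1 := th_low k 0 B n m
        rw [zero_add] at hth1
        simp only [zero_add] at hth hnu hMm hn
        rw [hth, hnu] at hth1
        have hnu1 := nu_low k 0 B n
        rw [zero_add, hnu] at hnu1
        refine ⟨k + 1, B, 0, k - 1, by omega, by omega, ?_, ?_, ?_⟩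
        · rw [hn]; unfold EE
          have : ((k - 1 : ℕ) : ℤ) = k - 1 := by push_cast [Nat.cast_sub hk]; ring
          rw [this]; push_cast; ring
        · have h1 := gg_drop (k + 1) B 0 n m
          rw [th_sw, hth1] at h1
          have h2 := rho_add_gg (k + 1) B 0 n m
          have h3 := nu_drop (k + 1) B 0 n
          rw [nu_sw k (B + 1) n, hnu1] at h3
          unfold Mm at h2
          rw [rho_sub]
          push_cast at h1 h2 h3
          linarith
        · have h1 := gg_drop (k + 1) B 0 n m
          rw [th_sw, hth1] at h1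
          rw [gg_sub]
          push_cast at h1
          linarith
      · -- `A ≥ 2`
        have hth1 := th_low k (A + 1) B n m
        rw [hth, hnu] at hth1
        have hnu1 := nu_low k (A + 1) B n
        rw [hnu] at hnu1
        refine ⟨k, A, B + 1, k - 1, by omega, by omega, ?_, ?_, ?_⟩
        · rw [hn]; unfold EE
          have : ((k - 1 : ℕ) : ℤ) = k - 1 := by push_cast [Nat.cast_sub hk]; ring
          rw [this]; push_cast; ring
        · have h1 := gg_drop k A (B + 1) n m
          rw [hth1] at h1
          have h2 := rho_add_gg k A (B + 1) n m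
          have h3 := nu_drop k A (B + 1) n
          rw [hnu1] at h3
          unfold Mm at h2
          rw [rho_sub]
          push_cast at h1 h2 h3
          linarith
        · have h1 := gg_drop k A (B + 1) n m
          rw [hth1] at h1
          rw [gg_sub]
          push_cast at h1
          linarith
    · have hδ1 : ((δ - 1 : ℕ) : ℤ) = δ - 1 := by push_cast [Nat.cast_sub hδ0]; ring
      rcases A with _ | A
      · refine ⟨k + 1, B, 0, δ - 1, by omega, by omega, ?_, ?_, ?_⟩
        · rw [hn, hδ1]; unfold EE; push_cast; ring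
        · rw [rho_sub, rho_sw, hr0, hMm]; linarith
        · rw [gg_sub, gg_sw, hr0]; norm_num
      · refine ⟨k, A, B + 1, δ - 1, hk, by omega, ?_, ?_, ?_⟩
        · rw [hn, hδ1]; unfold EE; push_cast; ring
        · rw [rho_sub, rho_low, hr0, hMm]; linarith
        · rw [gg_sub, gg_low, hr0]; norm_num
  · exact ⟨k, A, B, δ, hk, hδ, hn, by rw [rho_sub]; linarith, by rw [gg_sub]; linarith⟩

theorem onLine_top (n : ℕ) (m : ℤ) (hm : 2 * m = (n + 2) * (n + 1)) : OnLine (n + 2) m := by
  have h3 := two_es3 1 n 0
  have hE : EE 1 n 0 = n := by unfold EE; push_cast; ring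
  rw [hE] at h3
  push_cast at h3
  have hth : th 1 n 0 (n + 2) m = 1 := by
    unfold th nu
    rw [hE]
    nlinarith
  refine ⟨1, n, 0, 0, le_refl 1, by omega, ?_, ?_, ?_⟩
  · rw [hE]; push_cast; ring
  · unfold rho; rw [hth]; unfold nu; rw [hE]; push_cast; linarith
  · unfold gg; rw [hth]; unfold nu; rw [hE]; push_cast; linarith

/-- every `(n, m)` is on a line -/
theorem onLine (n : ℕ) (hn : 2 ≤ n) (m : ℕ) (hm : m ≤ n.choose 2) : OnLine n m := by
  obtain ⟨n', rfl⟩ : ∃ n', n = n' + 2 := ⟨n - 2, by omega⟩
  have h2 : 2 * (((n' + 2).choose 2 : ℕ) : ℤ) = ((n' : ℤ) + 2) * (n' + 1) := by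
    have h4 : (n' + 2).choose 2 * 2 = (n' + 2) * (n' + 1) := by
      rw [Nat.choose_two_right]
      exact Nat.div_mul_cancel (Nat.even_mul_pred_self (n' + 2)).two_dvd
    have h5 : (((n' + 2).choose 2 * 2 : ℕ) : ℤ) = (((n' + 2) * (n' + 1) : ℕ) : ℤ) := by rw [h4]
    push_cast at h5
    linarith
  have key : ∀ d : ℕ, d ≤ (n' + 2).choose 2 →
      OnLine ((n' + 2 : ℕ) : ℤ) (((n' + 2).choose 2 : ℕ) - d : ℤ) := by
    intro d
    induction d with
    | zero =>
      intro _
      have := onLine_top n' (((n' + 2).choose 2 : ℕ) : ℤ) h2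
      push_cast at this ⊢
      simpa using this
    | succ d ih =>
      intro hd
      have h1 := ih (by omega)
      have h3 : (1 : ℤ) ≤ ((n' + 2).choose 2 : ℕ) - d := by
        have : ((d + 1 : ℕ) : ℤ) ≤ ((n' + 2).choose 2 : ℕ) := by exact_mod_cast hd
        push_cast at this ⊢
        linarith
      have h4 := h1.sub_one h3
      have e : (((n' + 2).choose 2 : ℕ) - ((d + 1 : ℕ) : ℤ) : ℤ)
          = (((n' + 2).choose 2 : ℕ) - d : ℤ) - 1 := by push_cast; ring
      rw [e]
      exact h4
  have := key ((n' + 2).choose 2 - m) (by omega)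
  have e : (((n' + 2).choose 2 : ℕ) - (((n' + 2).choose 2 - m : ℕ) : ℤ) : ℤ) = m := by
    rw [Nat.cast_sub hm]; ring
  rw [e] at this
  exact this

end Pool.Agent.Helper31.LSr
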