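import Pool.Agent.Helper72.LSr.C0
import Pool.Agent.Helper72.LSr.N1
import Pool.Agent.Helper72.LS.L8

/-!
# The extremal graphs: number of `r`-cliques, all `r`
-/

namespace Pool.Agent.Helper31.LSr

open Finset Pool.Agent.Helper72.LSr
open scoped Classical
open Pool.Agent.Helper82.LS (fjBip fjBip_lr fjBip_rl fjBip_ll fjBip_rr fjBip_cf fjBip_em fj_bip_form
  fjJoin fjJoin_ll fjJoin_lr fjJoin_rl fjJoin_rr)
open Pool.Agent.Helper72.LS (PartiteForm numK)

/-- transport along an embedding -/
theorem K_map {V W : Type} (G : SimpleGraph V) (H : SimpleGraph W) (f : V ↪ W)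
    (hf : ∀ x y, G.Adj x y ↔ H.Adj (f x) (f y)) (S : Finset V) (r : ℕ) :
    K H (S.map f) r = K G S r := by
  unfold K
  rw [powersetCard_map, filter_map, card_map]
  congr 2
  apply filter_congr
  intro t _
  simp only [Function.comp, SimpleGraph.isClique_iff]
  show Set.Pairwise (((t.map f : Finset W)) : Set W) H.Adj ↔ _
  rw [coe_map]
  constructor
  · intro h x hx y hy hxy
    rw [hf]
    exact h (Set.mem_image_of_mem f hx) (Set.mem_image_of_mem f hy) (fun h' => hxy (f.injective h'))
  · rintro h _ ⟨x, hx, rfl⟩ _ ⟨y, hy, rfl⟩ hxy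
    rw [← hf]
    exact h hx hy (fun h' => hxy (by rw [h']))

theorem nb_join {V : Type} [Fintype V] (G : SimpleGraph V) (s : ℕ) (R : Finset (Fin s)) (j : Fin s) :
    nb (fjJoin G s) ((univ : Finset V).map Function.Embedding.inl ∪ R.map Function.Embedding.inr)
      (Sum.inr j) = (univ : Finset V).map Function.Embedding.inl := by
  ext x
  rw [mem_nb, mem_union]
  constructor
  · rintro ⟨h1 | h1, h2⟩
    · exact h1
    · exfalso
      rw [mem_map] at h1
      obtain ⟨y, _, rfl⟩ := h1
      exact fjJoin_rr G s j y h2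
  · intro h1
    refine ⟨Or.inl h1, ?_⟩
    rw [mem_map] at h1
    obtain ⟨y, _, rfl⟩ := h1
    exact fjJoin_rl G s y j

theorem K_join {V : Type} [Fintype V] (G : SimpleGraph V) (s r : ℕ) :
    K (fjJoin G s) univ (r + 1) = K G univ (r + 1) + s * K G univ r := by
  have hm : ∀ r, K (fjJoin G s) ((univ : Finset V).map Function.Embedding.inl) r = K G univ r :=
    fun r => K_map G (fjJoin G s) Function.Embedding.inl (fun x y => (fjJoin_ll G s x y).symm) univ r
  have key : ∀ R : Finset (Fin s),
      K (fjJoin G s) ((univ : Finset V).map Function.Embedding.inl ∪ R.map Function.Embedding.inr)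
        (r + 1) = K G univ (r + 1) + R.card * K G univ r := by
    intro R
    induction R using Finset.induction_on with
    | empty => simp [hm]
    | insert j R hj ih =>
      have hj' : (Sum.inr j : V ⊕ Fin s) ∉
          (univ : Finset V).map Function.Embedding.inl ∪ R.map Function.Embedding.inr := by
        rw [mem_union]
        rintro (h | h)
        · rw [mem_map] at h
          obtain ⟨y, _, hy⟩ := h
          exact absurd hy (by simp)
        · rw [mem_map] at h
          obtain ⟨y, hy, hy'⟩ := h
          have : y = j := Sum.inr_injective hy'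
          exact hj (this ▸ hy)
      have e : (univ : Finset V).map Function.Embedding.inl ∪
          (insert j R).map Function.Embedding.inr
          = insert (Sum.inr j : V ⊕ Fin s) ((univ : Finset V).map Function.Embedding.inl ∪
            R.map Function.Embedding.inr) := by
        rw [map_insert, union_insert]
        rfl
      have h1 := K_insert (fjJoin G s) hj' r
      rw [ih, nb_join, hm] at h1
      have h2 : K (fjJoin G s) (insert (Sum.inr j : V ⊕ Fin s)
          ((univ : Finset V).map Function.Embedding.inl ∪ R.map Function.Embedding.inr)) (r + 1)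
          = K G univ (r + 1) + (R.card : ℤ) * K G univ r + K G univ r := by
        convert h1
      rw [e, h2, card_insert_of_notMem hj]
      push_cast
      ring
  have hu : (univ : Finset V).map Function.Embedding.inl ∪
      (univ : Finset (Fin s)).map Function.Embedding.inr = (univ : Finset (V ⊕ Fin s)) := by
    ext x
    rcases x with x | x <;> simp
  have := key univ
  rw [hu, card_univ, Fintype.card_fin] at this
  exact this

/-- `K` of the whole vertex set -/
theorem K_univ {V : Type} [Fintype V] (G : SimpleGraph V) (r : ℕ) :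
    K G univ r = (numK r G : ℤ) := by
  unfold K numK
  rw [Set.ncard_eq_toFinset_card']
  congr 2
  ext s
  simp only [mem_filter, mem_powersetCard, subset_univ, true_and, Set.mem_toFinset,
    Set.mem_ofPred_eq, SimpleGraph.isNClique_iff]
  tauto

theorem K_two_univ {V : Type} [Fintype V] (G : SimpleGraph V) :
    K G univ 2 = (G.edgeSet.ncard : ℤ) := by
  rw [K_univ]
  unfold numK
  have : {s : Finset V | G.IsNClique 2 s} = (fun e : Sym2 V => e.toFinset) '' G.edgeSet := by
    ext s
    simp only [Set.mem_ofPred_eq, Set.mem_image]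
    constructor
    · intro hs
      obtain ⟨h1, h2⟩ := (SimpleGraph.isNClique_iff _).1 hs
      obtain ⟨a, b, hab, rfl⟩ := card_eq_two.1 h2
      refine ⟨s(a, b), ?_, ?_⟩
      · rw [SimpleGraph.mem_edgeSet]
        exact h1 (by simp) (by simp) hab
      · ext x; simp
    · rintro ⟨e, he, rfl⟩
      induction e with
      | _ a b =>
        rw [SimpleGraph.mem_edgeSet] at he
        have hE : (s(a, b) : Sym2 V).toFinset = {a, b} := by ext x; simp
        rw [hE, SimpleGraph.isNClique_iff]
        refine ⟨?_, card_pair he.ne⟩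
        rw [coe_pair, SimpleGraph.isClique_pair]
        exact fun _ => he
  rw [this, Set.InjOn.ncard_image]
  intro a _ b _ hab
  have := congrArg (fun s : Finset V => (s : Set V)) hab
  apply Sym2.ext
  intro x
  have h3 := Finset.ext_iff.1 hab x
  simpa using h3

theorem K_bip {a b : ℕ} (S : Finset (Fin a × Fin b)) (i : ℕ) :
    K (fjBip S) univ (i + 1) = es 1 0 0 (i + 2) + (a + b) * es 1 0 0 (i + 1)
      + S.card * es 1 0 0 i := by
  rcases i with _ | _ | i
  · rw [show 0 + 1 = 1 from rfl, K_one, show 0 + 2 = 0 + 2 from rfl, es_empty, es_one, es_zero]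
    simp
  · rw [show 0 + 1 + 1 = 2 from rfl, K_two_univ, show 0 + 1 + 2 = 1 + 2 from rfl, es_empty,
      show 2 = 0 + 2 from rfl, es_empty, show 0 + 1 = 1 from rfl, es_one,
      ← Pool.Agent.Helper72.LS.em_eq_ncard, fjBip_em]
    ring
  · rw [show i + 1 + 1 + 2 = (i + 2) + 2 from rfl, es_empty,
      show i + 1 + 1 + 1 = (i + 1) + 2 from rfl, es_empty, show i + 1 + 1 = i + 2 from rfl, es_empty,
      K_univ]
    have : numK (i + 1 + 2) (fjBip S) = 0 := by
      unfold numK
      have h3 : {s : Finset (Fin a ⊕ Fin b) | (fjBip S).IsNClique (i + 1 + 2) s} = ∅ := by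
        ext s
        simp only [Set.mem_ofPred_eq, Set.mem_empty_iff_false, iff_false]
        exact (fjBip_cf S).mono (by omega) s
      rw [h3, Set.ncard_empty]
    rw [this]
    simp

theorem join_form {V : Type} (G : SimpleGraph V) (hG : PartiteForm G) (s : ℕ)
    (hs : 1 ≤ s) : PartiteForm (fjJoin G s) := by
  obtain ⟨K, c, i, hsurj, hadj, hin, hcf⟩ := hG
  refine ⟨K + 1, Sum.elim (fun x => Fin.castSucc (c x)) (fun _ => Fin.last K),
    Fin.castSucc i, ?_, ?_, ?_, ?_⟩
  · intro y
    refine Fin.lastCases ?_ (fun y => ?_) y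
    · exact ⟨Sum.inr ⟨0, hs⟩, rfl⟩
    · obtain ⟨x, hx⟩ := hsurj y
      exact ⟨Sum.inl x, by simp [hx]⟩
  · intro u v huv
    rcases u with u | u <;> rcases v with v | v
    · refine hadj u v fun h => huv ?_
      simp [h]
    · exact fjJoin_lr G s u v
    · exact fjJoin_rl G s v u
    · exact absurd rfl huv
  · intro u v huv hc
    rcases u with u | u <;> rcases v with v | v
    · have h1 : c u = c v := by simpa using hc
      have h2 := hin u v huv h1
      simp [h2]
    · simp only [Sum.elim_inl, Sum.elim_inr] at hc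
      exact absurd hc (Fin.castSucc_lt_last _).ne
    · simp only [Sum.elim_inl, Sum.elim_inr] at hc
      exact absurd hc (Fin.castSucc_lt_last _).ne'
    · exact absurd huv (fjJoin_rr G s u v)
  · intro t ht
    rw [SimpleGraph.is3Clique_iff] at ht
    obtain ⟨x, y, z, hxy, hxz, hyz, -⟩ := ht
    have key : ∀ w : {v | Sum.elim (fun x => Fin.castSucc (c x)) (fun _ : Fin s => Fin.last K) v
        = Fin.castSucc i}, ∃ w' : {v | c v = i}, w.1 = Sum.inl w'.1 := by
      rintro ⟨w, hw⟩
      rcases w with w | w
      · have h1 : c w = i := by simpa using hw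
        exact ⟨⟨w, h1⟩, rfl⟩
      · have h1 : Fin.last K = Fin.castSucc i := hw
        exact absurd h1 (Fin.castSucc_lt_last _).ne'
    obtain ⟨x', hx'⟩ := key x
    obtain ⟨y', hy'⟩ := key y
    obtain ⟨z', hz'⟩ := key z
    have hxy' : G.Adj x'.1 y'.1 := by
      have h : (fjJoin G s).Adj x.1 y.1 := hxy
      rw [hx', hy'] at h
      exact h
    have hxz' : G.Adj x'.1 z'.1 := by
      have h : (fjJoin G s).Adj x.1 z.1 := hxz
      rw [hx', hz'] at h
      exact h
    have hyz' : G.Adj y'.1 z'.1 := by
      have h : (fjJoin G s).Adj y.1 z.1 := hyz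
      rw [hy', hz'] at h
      exact h
    refine hcf {x', y', z'} ?_
    rw [SimpleGraph.is3Clique_iff]
    exact ⟨x', y', z', hxy', hxz', hyz', rfl⟩

/-- the graph of the line -/
theorem exists_graph (k : ℕ) (hk : 1 ≤ k) (a b t : ℕ) (ha : 1 ≤ a) (ht : t ≤ a * b) (A B : ℕ) :
    ∃ (W : Type) (_ : Fintype W) (Γ : SimpleGraph W), PartiteForm Γ ∧
      ∀ i, K Γ univ (i + 1) = es k A B (i + 2) + (a + b) * es k A B (i + 1) + t * es k A B i := by
  have hbase : ∃ (W : Type) (_ : Fintype W) (Γ : SimpleGraph W), PartiteForm Γ ∧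
      ∀ i, K Γ univ (i + 1) = es k 0 0 (i + 2) + (a + b) * es k 0 0 (i + 1) + t * es k 0 0 i := by
    have hc : t ≤ (univ : Finset (Fin a × Fin b)).card := by
      rw [Finset.card_univ, Fintype.card_prod, Fintype.card_fin, Fintype.card_fin]
      exact ht
    obtain ⟨S, -, hS⟩ := Finset.exists_subset_card_eq hc
    refine ⟨Fin a ⊕ Fin b, inferInstance, fjBip S, fj_bip_form ha S, ?_⟩
    intro i
    rw [K_bip, hS]
    have e : ∀ i, es 1 0 0 i = es k 0 0 i := by
      intro i
      rcases i with _ | _ | i
      · rw [es_zero, es_zero]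
      · rw [es_one, es_one]
      · rw [es_empty, es_empty]
    rw [e, e, e]
  have hjoin : ∀ (A B A' B' s : ℕ), 1 ≤ s →
      (∀ i, es k A' B' (i + 1) = es k A B (i + 1) + s * es k A B i) →
      (∃ (W : Type) (_ : Fintype W) (Γ : SimpleGraph W), PartiteForm Γ ∧
        ∀ i, K Γ univ (i + 1) = es k A B (i + 2) + (a + b) * es k A B (i + 1) + t * es k A B i) →
      (∃ (W : Type) (_ : Fintype W) (Γ : SimpleGraph W), PartiteForm Γ ∧
        ∀ i, K Γ univ (i + 1) = es k A' B' (i + 2) + (a + b) * es k A' B' (i + 1)
          + t * es k A' B' i) := by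
    intro A B A' B' s hs hes hW
    obtain ⟨W, instW, Γ, hΓ, hK⟩ := hW
    refine ⟨W ⊕ Fin s, inferInstance, fjJoin Γ s, ?_, ?_⟩
    · exact join_form Γ hΓ s hs
    · intro i
      rw [K_join, hK]
      rcases i with _ | i
      · rw [K_zero, show 0 + 2 = 1 + 1 from rfl, hes 1, show 0 + 1 = 0 + 1 from rfl, hes 0]
        rw [es_zero, es_zero, es_one]
        ring
      · rw [hK, show i + 1 + 2 = (i + 2) + 1 from rfl, hes (i + 2), hes (i + 1), hes i]
        ring
  have hB : ∀ B, ∃ (W : Type) (_ : Fintype W) (Γ : SimpleGraph W), PartiteForm Γ ∧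
      ∀ i, K Γ univ (i + 1) = es k 0 B (i + 2) + (a + b) * es k 0 B (i + 1) + t * es k 0 B i := by
    intro B
    induction B with
    | zero => exact hbase
    | succ B ih =>
      apply hjoin 0 B 0 (B + 1) (k + 1) (by omega) _ ih
      intro i
      rw [es_sB]
      push_cast
      ring
  induction A with
  | zero => exact hB B
  | succ A ih =>
    apply hjoin A B (A + 1) B k hk _ ih
    intro i
    rw [es_sA]

end Pool.Agent.Helper31.LSr
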