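import Pool.Agent.Helper31.LSr.E1
import Pool.Agent.Helper31.LSr.E2

/-!
# The final theorem, from the lower bound
-/

namespace Pool.Agent.Helper31.LSr

open Finset Pool.Agent.Helper72.LSr
open scoped Classical
open Pool.Agent.Helper72.LS (PartiteForm numK partiteForm_bot PartiteForm.comap)

theorem K_comap {V W : Type} [Fintype V] [Fintype W] (Γ : SimpleGraph W) (e : V ≃ W) (r : ℕ) :
    K (Γ.comap e) univ r = K Γ univ r := by
  have h := K_map (Γ.comap e) Γ e.toEmbedding (fun x y => Iff.rfl) univ r
  rw [map_univ_equiv] at h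
  exact h.symm

/-- the final theorem, from the lower bound `main_bound` -/
theorem all_of_bound
    (hb : ∀ (n : ℕ) (G : SimpleGraph (Fin n)) (k A B : ℕ), 1 ≤ k →
      0 ≤ rho k A B (univ : Finset (Fin n)).card (K G univ 2) →
      0 ≤ gg k A B (univ : Finset (Fin n)).card (K G univ 2) →
      ∀ i : ℕ, Vl k A B i (univ : Finset (Fin n)).card (K G univ 2) ≤ K G univ (i + 1))
    (n m : ℕ) (hn : 1 ≤ n) (hm : m ≤ n.choose 2) :
    ∃ G : SimpleGraph (Fin n), G.edgeSet.ncard = m ∧ PartiteForm G ∧
      ∀ (r : ℕ) (G' : SimpleGraph (Fin n)), G'.edgeSet.ncard = m → numK r G ≤ numK r G' := by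
  haveI : Nonempty (Fin n) := ⟨⟨0, by omega⟩⟩
  rcases (show n = 1 ∨ 2 ≤ n by omega) with rfl | hn2
  · have hm0 : m = 0 := by simpa using hm
    subst hm0
    refine ⟨⊥, by simp, partiteForm_bot, ?_⟩
    intro r G' _
    have : G' = ⊥ := by
      ext a b
      constructor
      · intro h
        exact absurd (Subsingleton.elim a b) h.ne
      · intro h
        exact absurd h (by simp)
    rw [this]
  · obtain ⟨k, A, B, δ, hk, hδ, hnn, hr, hg⟩ := onLine n hn2 m hm
    have hnu : nu k A B n = k + (δ + 1 : ℕ) := by unfold nu; rw [hnn]; push_cast; ring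
    have hth0 : 0 ≤ th k A B n m := by
      unfold rho at hr
      rw [hnu] at hr
      push_cast at hr
      have : (0 : ℤ) ≤ (k + 1) * δ := by positivity
      linarith
    obtain ⟨t, ht⟩ : ∃ t : ℕ, (t : ℤ) = th k A B n m :=
      ⟨(th k A B n m).toNat, Int.toNat_of_nonneg hth0⟩
    have htle : t ≤ k * (δ + 1) := by
      have h1 : (t : ℤ) ≤ k * (δ + 1 : ℕ) := by
        rw [ht]
        unfold gg at hg
        rw [hnu] at hg
        push_cast at hg ⊢
        linarith
      exact_mod_cast h1
    obtain ⟨W, instW, Γ, hΓ, hK⟩ := exists_graph k hk k (δ + 1) t hk htle A B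
    have hV : ∀ i, K Γ univ (i + 1) = Vl k A B i n m := by
      intro i
      rw [hK i, ht]
      unfold Vl
      rw [hnu]
    have hcard : Fintype.card W = n := by
      have h1 := hV 0
      rw [Vl_zero, show 0 + 1 = 1 from rfl, K_one, card_univ] at h1
      exact_mod_cast h1
    have hedge : K Γ univ 2 = m := by
      have h1 := hV 1
      rw [Vl_one] at h1
      exact h1
    have eW : Fin n ≃ W := (Fintype.equivFinOfCardEq hcard).symm
    refine ⟨Γ.comap eW, ?_, hΓ.comap eW, ?_⟩
    · have h1 := K_two_univ (Γ.comap eW)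
      rw [K_comap, hedge] at h1
      exact_mod_cast h1.symm
    · intro r G' hG'
      have h2 : K G' univ 2 = m := by rw [K_two_univ, hG']
      have h3 : K (Γ.comap eW) univ r ≤ K G' univ r := by
        rw [K_comap]
        rcases r with _ | i
        · rw [K_zero, K_zero]
        · rw [hV i]
          have h4 := hb n G' k A B hk
          rw [h2, card_univ, Fintype.card_fin] at h4
          exact h4 hr hg i
      rw [K_univ, K_univ] at h3
      exact_mod_cast h3

end Pool.Agent.Helper31.LSr
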